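import Mathlib

set_option autoImplicit false

/-!
# Independence of the maps `y ↦ φ (b y)`
-/

namespace Pool.Agent.H12.FN

/-- Left multiplication operators. -/
noncomputable def lm (A : Type*) [Field A] : A →+* Module.End ℤ A :=
  (Algebra.lmul ℤ A : A →ₐ[ℤ] Module.End ℤ A).toRingHom

@[simp] theorem lm_apply {A : Type*} [Field A] (a y : A) : lm A a y = a * y := rfl

/-- A functional, viewed as an additive endomorphism. -/
def fn {A : Type*} [Field A] (K : Subfield A) (φ : A →ₗ[K] K) : Module.End ℤ A :=
  ((K.subtype.toAddMonoidHom.comp φ.toAddMonoidHom)).toIntLinearMap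

@[simp] theorem fn_apply {A : Type*} [Field A] (K : Subfield A) (φ : A →ₗ[K] K) (y : A) :
    fn K φ y = (φ y : A) := rfl

theorem indep_fn {A : Type*} [Field A] (K : Subfield A) (φ : A →ₗ[K] K) (hφ : φ ≠ 0)
    {ι : Type*} (b : ι → A) (hb : LinearIndependent K b) :
    LinearIndependent A (fun i => fn K φ * lm A (b i)) := by
  rw [linearIndependent_iff'] at hb ⊢
  intro s a ha i hi
  have h1 : ∀ y, ∑ i ∈ s, a i * (φ (b i * y) : A) = 0 := by
    intro y
    have := congrArg (fun t : Module.End ℤ A => t y) ha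
    simpa [LinearMap.sum_apply] using this
  by_contra hai
  -- a functional nonzero at `a i`
  obtain ⟨l, hl⟩ : ∃ l : Module.Dual K A, l (a i) ≠ 0 := by
    by_contra hcon
    push Not at hcon
    exact hai ((Module.forall_dual_apply_eq_zero_iff K (a i)).mp hcon)
  have h2 : ∀ y, φ ((∑ i ∈ s, l (a i) • b i) * y) = 0 := by
    intro y
    have h3 := congrArg l (h1 y)
    rw [map_sum, map_zero] at h3
    rw [Finset.sum_mul, map_sum]
    rw [← h3]
    apply Finset.sum_congr rfl
    intro j _
    rw [smul_mul_assoc, map_smul, smul_eq_mul]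
    have h4 : a j * (φ (b j * y) : A) = φ (b j * y) • a j := by
      rw [Subfield.smul_def, mul_comm]; rfl
    rw [h4, map_smul, smul_eq_mul, mul_comm]
  have h5 : ∑ i ∈ s, l (a i) • b i = 0 := by
    by_contra hne
    apply hφ
    ext y
    have h6 := h2 ((∑ i ∈ s, l (a i) • b i)⁻¹ * y)
    rw [mul_inv_cancel_left₀ hne] at h6
    rw [h6]; rfl
  exact hl (hb s (fun j => l (a j)) h5 i hi)

/-- If the maps `y ↦ φ (b y)` for `b ∈ B` lie in a finitely generated left `A`-space, then `B`
spans a finite-dimensional `K`-space. -/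
theorem finite_span {A : Type*} [Field A] (K : Subfield A) (φ : A →ₗ[K] K) (hφ : φ ≠ 0)
    (B : Set A) (W : Finset (Module.End ℤ A))
    (h : ∀ b ∈ B, fn K φ * lm A b ∈ Submodule.span A (W : Set (Module.End ℤ A))) :
    Module.Finite K (Submodule.span K B) := by
  obtain ⟨b, hbB, hspan, hli⟩ := exists_linearIndependent K B
  have h1 := indep_fn K φ hφ (Subtype.val : b → A) hli
  have h2 : Set.range (fun i : b => fn K φ * lm A i.1) ≤
      Submodule.span A (W : Set (Module.End ℤ A)) := by
    rintro _ ⟨i, rfl⟩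
    exact h i.1 (hbB i.2)
  have hfin : Finite b := h1.finite_of_le_span_finite _ (W : Set (Module.End ℤ A)) h2
  rw [← hspan]
  exact Module.Finite.span_of_finite K (Set.toFinite b)

end Pool.Agent.H12.FN
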