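import Mathlib

set_option autoImplicit false

/-!
# A criterion for a ring to be noetherian, and a stabilization lemma
-/

namespace Pool.Agent.H12.FN

/-- If a ring `S` embeds in a ring `Q` in such a way that its image lies in a finite sum of
`f(K) g`, where `K` is a field mapping to `S`, then `S` is left noetherian. -/
theorem isNoetherianRing_of_span {S Q K : Type*} [Ring S] [Ring Q] [Field K] (f : K →+* S)
    (j : S →+* Q) (hj : Function.Injective j) (G : Finset Q)
    (h : ∀ s : S, j s ∈ Submodule.span ℤ {q : Q | ∃ k : K, ∃ g ∈ G, q = j (f k) * g}) :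
    IsNoetherianRing S := by
  let _ : Module K S := Module.compHom S f
  let _ : Module K Q := Module.compHom Q (j.comp f)
  let V : Submodule K Q := Submodule.span K (G : Set Q)
  have hV : Module.Finite K V := Module.Finite.span_finset K G
  have hV' : IsNoetherian K V := inferInstance
  have hmem : ∀ s : S, j s ∈ V := by
    intro s
    have h1 : Submodule.span ℤ {q : Q | ∃ k : K, ∃ g ∈ G, q = j (f k) * g}
        ≤ V.toAddSubgroup.toIntSubmodule := by
      rw [Submodule.span_le]
      rintro q ⟨k, g, hg, rfl⟩
      exact V.smul_mem k (Submodule.subset_span hg)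
    exact h1 (h s)
  let L : S →ₗ[K] V :=
    { toFun := fun s => ⟨j s, hmem s⟩
      map_add' := by
        intro x y
        apply Subtype.ext
        exact map_add j x y
      map_smul' := by
        intro c x
        apply Subtype.ext
        change j (f c * x) = j (f c) * j x
        rw [map_mul] }
  have hL : Function.Injective L := by
    intro x y hxy
    exact hj (congrArg Subtype.val hxy)
  have hN : IsNoetherian K S := isNoetherian_of_injective L hL
  have : IsScalarTower K S S := ⟨fun a b c => by
    change f a * b * c = f a * (b * c)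
    rw [mul_assoc]⟩
  exact isNoetherian_of_tower K hN

/-- The right-handed version. -/
theorem isNoetherianRing_op_of_span {S Q K : Type*} [Ring S] [Ring Q] [Field K] (f : K →+* S)
    (j : S →+* Q) (hj : Function.Injective j) (G : Finset Q)
    (h : ∀ s : S, j s ∈ Submodule.span ℤ {q : Q | ∃ k : K, ∃ g ∈ G, q = g * j (f k)}) :
    IsNoetherianRing Sᵐᵒᵖ := by
  classical
  refine isNoetherianRing_of_span (f.toOpposite (fun x y => (Commute.all x y).map f))
    (RingHom.op j) ?_ (G.image MulOpposite.op) ?_
  · intro x y hxy
    apply MulOpposite.unop_injective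
    apply hj
    exact congrArg MulOpposite.unop hxy
  · intro s
    have h2 := h (MulOpposite.unop s)
    have h3 : (RingHom.op j) s = MulOpposite.op (j (MulOpposite.unop s)) := rfl
    rw [h3]
    generalize j (MulOpposite.unop s) = x at h2
    induction h2 using Submodule.span_induction with
    | mem x hx =>
      obtain ⟨k, g, hg, rfl⟩ := hx
      apply Submodule.subset_span
      refine ⟨k, MulOpposite.op g, Finset.mem_image_of_mem _ hg, ?_⟩
      rfl
    | zero => exact Submodule.zero_mem _
    | add x y _ _ hx hy => exact Submodule.add_mem _ hx hy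
    | smul c x _ hx => exact Submodule.smul_mem _ c hx

/-- Stabilization lemma.  `F n` is a decreasing chain of subfields of a field `A`, and `B` is a
subset of `A` containing `1` that is contained in a finite sum `∑ (F n) w`, with the same finite
set of `w` for all `n`.  Then for some `n` the intersection of `F n` with the `F (n+1)`-span of `B`
is contained in `F (n+1)`. -/
theorem stabilize {A : Type*} [Field A] (F : ℕ → Subfield A) (hF : ∀ n, F (n + 1) ≤ F n)
    (B : Set A) (h1 : (1 : A) ∈ B) (W : Finset A)
    (hW : ∀ n, B ⊆ (Submodule.span (F n) (W : Set A) : Submodule (F n) A)) :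
    ∃ n, ∀ z ∈ F n, z ∈ (Submodule.span (F (n + 1)) B : Submodule (F (n + 1)) A) →
      z ∈ F (n + 1) := by
  classical
  have hfin : ∀ n, Module.Finite (F n) (Submodule.span (F n) B) := by
    intro n
    have h2 : Module.Finite (F n) (Submodule.span (F n) (W : Set A)) :=
      Module.Finite.span_finset (F n) W
    exact Submodule.finiteDimensional_of_le (Submodule.span_le.mpr (hW n))
  let d : ℕ → ℕ := fun n => Module.finrank (F n) (Submodule.span (F n) B)
  have hd : ∀ n, d n ≤ W.card := by
    intro n
    have h2 : Module.Finite (F n) (Submodule.span (F n) (W : Set A)) :=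
      Module.Finite.span_finset (F n) W
    exact (Submodule.finrank_mono (Submodule.span_le.mpr (hW n))).trans
      (finrank_span_finset_le_card W)
  obtain ⟨n, hn⟩ : ∃ n, ∀ m, d m ≤ d n := by
    have hb : BddAbove (Set.range d) := ⟨W.card, by rintro _ ⟨n, rfl⟩; exact hd n⟩
    obtain ⟨n, hn⟩ := Nat.sSup_mem (Set.range_nonempty d) hb
    refine ⟨n, fun m => ?_⟩
    rw [hn]
    exact le_csSup hb ⟨m, rfl⟩
  refine ⟨n, ?_⟩
  intro z hz hzB
  -- a basis of the `F (n+1)`-span of `B`, inside `B` and containing `1`
  obtain ⟨b, hbB, h1b, hBb, hli⟩ := exists_linearIndepOn_id_extension (K := F (n + 1))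
    (s := {(1 : A)}) (t := B)
    (LinearIndepOn.singleton (R := F (n + 1)) (v := (id : A → A)) one_ne_zero)
    (Set.singleton_subset_iff.mpr h1)
  have hspan : Submodule.span (F (n + 1)) b = Submodule.span (F (n + 1)) B :=
    le_antisymm (Submodule.span_mono hbB) (Submodule.span_le.mpr hBb)
  have hli' : LinearIndependent (F (n + 1)) (Subtype.val : b → A) := hli
  have hfin1 := hfin (n + 1)
  rw [← hspan] at hfin1
  have hbfin : Finite b := by
    have h3 : LinearIndependent (F (n + 1))
        (fun x : b => (⟨x.1, Submodule.subset_span x.2⟩ : Submodule.span (F (n + 1)) b)) := by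
      apply LinearIndependent.of_comp (Submodule.subtype _)
      exact hli'
    exact h3.finite_of_isNoetherian
  have := Fintype.ofFinite b
  have hcard : Fintype.card b = d (n + 1) := by
    change _ = Module.finrank (F (n + 1)) (Submodule.span (F (n + 1)) B)
    rw [← hspan]
    have := finrank_span_eq_card hli'
    rw [Subtype.range_coe] at this
    exact this.symm
  -- `b` spans over `F n` too
  have hle : ∀ x ∈ (Submodule.span (F (n + 1)) b : Submodule (F (n + 1)) A),
      x ∈ (Submodule.span (F n) b : Submodule (F n) A) := by
    intro x hx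
    induction hx using Submodule.span_induction with
    | mem x hx => exact Submodule.subset_span hx
    | zero => exact Submodule.zero_mem _
    | add x y _ _ hx hy => exact Submodule.add_mem _ hx hy
    | smul c x _ hx =>
      exact Submodule.smul_mem _ (⟨c.1, hF n c.2⟩ : F n) hx
  have hspan2 : Submodule.span (F n) b = Submodule.span (F n) B := by
    refine le_antisymm (Submodule.span_mono hbB) (Submodule.span_le.mpr ?_)
    intro x hx
    exact hle x (hBb hx)
  have hli2 : LinearIndependent (F n) (Subtype.val : b → A) := by
    rw [linearIndependent_iff_card_le_finrank_span, Subtype.range_coe, Set.finrank, hspan2, hcard]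
    exact hn (n + 1)
  -- compare the two expressions of `z`
  rw [← hspan] at hzB
  have hzB' : z ∈ Submodule.span (F (n + 1)) (Set.range (Subtype.val : b → A)) := by
    rw [Subtype.range_coe]; exact hzB
  obtain ⟨c, hc⟩ := (Submodule.mem_span_range_iff_exists_fun (F (n + 1))).mp hzB'
  let i0 : b := ⟨1, h1b rfl⟩
  let c' : b → F n := fun i => ⟨(c i).1, hF n (c i).2⟩
  let e : b → F n := Pi.single i0 ⟨z, hz⟩
  have h4 : ∑ i, c' i • (i : A) = ∑ i, e i • (i : A) := by
    have h5 : ∑ i, e i • (i : A) = z := by
      rw [Finset.sum_eq_single i0]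
      · simp [e, i0, Subfield.smul_def]
      · intro i _ hi
        simp [e, Pi.single_eq_of_ne hi]
      · intro h; exact absurd (Finset.mem_univ _) h
    rw [h5, ← hc]
    rfl
  have h6 := Fintype.linearIndependent_iff.mp hli2 (fun i => c' i - e i) (by
    simp only [sub_smul, Finset.sum_sub_distrib]
    rw [h4, sub_self]) i0
  have h7 : c' i0 = e i0 := sub_eq_zero.mp h6
  have h8 : (c i0).1 = z := by
    have := congrArg Subtype.val h7
    simpa [c', e] using this
  rw [← h8]
  exact (c i0).2

end Pool.Agent.H12.FN
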