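import Mathlib
import Pool.Agent.H12.FN.Noeth
import Pool.Agent.H12.FN.Indep

set_option autoImplicit false

/-!
# The ring: a square-zero extension of a field by a bimodule of additive endomorphisms
-/

namespace Pool.Agent.H12.FN

open TrivSqZeroExt

variable {A : Type*} [Field A]

/-- The endomorphism `t` normalizes the left multiplications by elements of `K`. -/
def Nrm (K : Subfield A) (t : Module.End ℤ A) : Prop :=
  (∀ α ∈ K, ∃ β ∈ K, t * lm A α = lm A β * t) ∧
    (∀ α ∈ K, ∃ β ∈ K, lm A α * t = t * lm A β)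

/-- The endomorphisms that normalize almost all the fields of the chain. -/
def gens (An : ℕ → Subfield A) : Set (Module.End ℤ A) :=
  {t | ∃ n, ∀ m, n ≤ m → Nrm (An m) t}

/-- The bimodule. -/
def MM (An : ℕ → Subfield A) : Submodule ℤ (Module.End ℤ A) := Submodule.span ℤ (gens An)

theorem lm_comm (a b : A) : lm A a * lm A b = lm A b * lm A a := by
  rw [← map_mul, ← map_mul, mul_comm]

theorem lm_mul_mem_gens (An : ℕ → Subfield A) (a : A) {t : Module.End ℤ A} (ht : t ∈ gens An) :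
    lm A a * t ∈ gens An := by
  obtain ⟨n, hn⟩ := ht
  refine ⟨n, fun m hm => ⟨?_, ?_⟩⟩
  · intro α hα
    obtain ⟨β, hβ, h⟩ := (hn m hm).1 α hα
    refine ⟨β, hβ, ?_⟩
    rw [mul_assoc, h, ← mul_assoc, lm_comm, mul_assoc]
  · intro α hα
    obtain ⟨β, hβ, h⟩ := (hn m hm).2 α hα
    refine ⟨β, hβ, ?_⟩
    rw [← mul_assoc, lm_comm, mul_assoc, h, mul_assoc]

theorem mul_lm_mem_gens (An : ℕ → Subfield A) (a : A) {t : Module.End ℤ A} (ht : t ∈ gens An) :
    t * lm A a ∈ gens An := by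
  obtain ⟨n, hn⟩ := ht
  refine ⟨n, fun m hm => ⟨?_, ?_⟩⟩
  · intro α hα
    obtain ⟨β, hβ, h⟩ := (hn m hm).1 α hα
    refine ⟨β, hβ, ?_⟩
    rw [mul_assoc, lm_comm, ← mul_assoc, h, mul_assoc]
  · intro α hα
    obtain ⟨β, hβ, h⟩ := (hn m hm).2 α hα
    refine ⟨β, hβ, ?_⟩
    rw [← mul_assoc, h, mul_assoc, lm_comm, mul_assoc]

theorem lm_mul_mem (An : ℕ → Subfield A) (a : A) {t : Module.End ℤ A} (ht : t ∈ MM An) :
    lm A a * t ∈ MM An := by
  induction ht using Submodule.span_induction with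
  | mem x hx => exact Submodule.subset_span (lm_mul_mem_gens An a hx)
  | zero => rw [mul_zero]; exact Submodule.zero_mem _
  | add x y _ _ hx hy => rw [mul_add]; exact Submodule.add_mem _ hx hy
  | smul c x _ hx => rw [mul_smul_comm]; exact Submodule.smul_mem _ c hx

theorem mul_lm_mem (An : ℕ → Subfield A) (a : A) {t : Module.End ℤ A} (ht : t ∈ MM An) :
    t * lm A a ∈ MM An := by
  induction ht using Submodule.span_induction with
  | mem x hx => exact Submodule.subset_span (mul_lm_mem_gens An a hx)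
  | zero => rw [zero_mul]; exact Submodule.zero_mem _
  | add x y _ _ hx hy => rw [add_mul]; exact Submodule.add_mem _ hx hy
  | smul c x _ hx => rw [smul_mul_assoc]; exact Submodule.smul_mem _ c hx

theorem snd_mul' (z w : DualNumber (Module.End ℤ A)) :
    (z * w).snd = z.fst * w.snd + z.snd * w.fst := by
  rw [TrivSqZeroExt.snd_mul, smul_eq_mul, op_smul_eq_mul]

/-- The ring of all `a + ε t` with `a ∈ A` and `t` in the bimodule. -/
def RR (An : ℕ → Subfield A) : Subring (DualNumber (Module.End ℤ A)) where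
  carrier := {z | (∃ a, z.fst = lm A a) ∧ z.snd ∈ MM An}
  mul_mem' := by
    rintro z w ⟨⟨a, ha⟩, hz⟩ ⟨⟨b, hb⟩, hw⟩
    refine ⟨⟨a * b, by rw [TrivSqZeroExt.fst_mul, ha, hb, map_mul]⟩, ?_⟩
    rw [snd_mul', ha, hb]
    exact Submodule.add_mem _ (lm_mul_mem An a hw) (mul_lm_mem An b hz)
  one_mem' := ⟨⟨1, by rw [TrivSqZeroExt.fst_one, map_one]⟩, by
    rw [TrivSqZeroExt.snd_one]; exact Submodule.zero_mem _⟩
  add_mem' := by
    rintro z w ⟨⟨a, ha⟩, hz⟩ ⟨⟨b, hb⟩, hw⟩
    refine ⟨⟨a + b, by rw [TrivSqZeroExt.fst_add, ha, hb, map_add]⟩, ?_⟩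
    rw [TrivSqZeroExt.snd_add]
    exact Submodule.add_mem _ hz hw
  zero_mem' := ⟨⟨0, by rw [TrivSqZeroExt.fst_zero, map_zero]⟩, by
    rw [TrivSqZeroExt.snd_zero]; exact Submodule.zero_mem _⟩
  neg_mem' := by
    rintro z ⟨⟨a, ha⟩, hz⟩
    refine ⟨⟨-a, by rw [TrivSqZeroExt.fst_neg, ha, map_neg]⟩, ?_⟩
    rw [TrivSqZeroExt.snd_neg]
    exact Submodule.neg_mem _ hz

/-- The projection of the ring onto the field. -/
def pr (An : ℕ → Subfield A) (z : RR An) : A := z.1.fst 1

theorem fst_eq (An : ℕ → Subfield A) (z : RR An) : z.1.fst = lm A (pr An z) := by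
  obtain ⟨a, ha⟩ := z.2.1
  have h : pr An z = a := by
    unfold pr
    rw [ha, lm_apply, mul_one]
  rw [h, ha]

theorem lm_injective : Function.Injective (lm A) := by
  intro a b h
  have := congrArg (fun t : Module.End ℤ A => t 1) h
  simpa using this

theorem pr_eq (An : ℕ → Subfield A) (z : RR An) (a : A) (h : z.1.fst = lm A a) : pr An z = a :=
  lm_injective (by rw [← fst_eq, h])

theorem pr_mul (An : ℕ → Subfield A) (z w : RR An) : pr An (z * w) = pr An z * pr An w := by
  apply pr_eq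
  rw [Subring.coe_mul, TrivSqZeroExt.fst_mul, fst_eq, fst_eq, map_mul]

theorem pr_add (An : ℕ → Subfield A) (z w : RR An) : pr An (z + w) = pr An z + pr An w := by
  apply pr_eq
  rw [Subring.coe_add, TrivSqZeroExt.fst_add, fst_eq, fst_eq, map_add]

/-- The projection, as a ring homomorphism. -/
def prHom (An : ℕ → Subfield A) : RR An →+* A where
  toFun := pr An
  map_one' := by
    apply pr_eq
    rw [Subring.coe_one, TrivSqZeroExt.fst_one, map_one]
  map_mul' := pr_mul An
  map_zero' := by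
    apply pr_eq
    rw [Subring.coe_zero, TrivSqZeroExt.fst_zero, map_zero]
  map_add' := pr_add An

/-- The embedding of the field in the ring. -/
noncomputable def incl (An : ℕ → Subfield A) : A →+* RR An :=
  ((TrivSqZeroExt.inlHom (Module.End ℤ A) (Module.End ℤ A)).comp (lm A)).codRestrict (RR An)
    (fun a => ⟨⟨a, rfl⟩, Submodule.zero_mem _⟩)

theorem incl_fst (An : ℕ → Subfield A) (a : A) : (incl An a).1.fst = lm A a := rfl

theorem incl_snd (An : ℕ → Subfield A) (a : A) : (incl An a).1.snd = 0 := rfl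

/-- Elements of the bimodule, as elements of the ring. -/
def eps (An : ℕ → Subfield A) (t : Module.End ℤ A) (ht : t ∈ MM An) : RR An :=
  ⟨TrivSqZeroExt.inr t, ⟨⟨0, by rw [map_zero]; rfl⟩, ht⟩⟩

theorem eps_fst (An : ℕ → Subfield A) (t : Module.End ℤ A) (ht : t ∈ MM An) :
    (eps An t ht).1.fst = 0 := rfl

theorem eps_snd (An : ℕ → Subfield A) (t : Module.End ℤ A) (ht : t ∈ MM An) :
    (eps An t ht).1.snd = t := rfl

end Pool.Agent.H12.FN
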