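import Mathlib
import Pool.Agent.H12.FN.Ring

set_option autoImplicit false

/-!
# The ring is F-noetherian
-/

namespace Pool.Agent.H12.FN

open TrivSqZeroExt

variable {A : Type*} [Field A]

/-- Finite sets of sub-bimodule elements are finitely generated on the left. -/
theorem bimod_left (K : Subfield A) (A' : Subalgebra K A) (E : Finset A)
    (hE : Submodule.span K (E : Set A) = Subalgebra.toSubmodule A')
    (G : Finset (Module.End ℤ A)) (hG : ∀ g ∈ G, Nrm K g) (a : A) (ha : a ∈ A')
    (g : Module.End ℤ A) (hg : g ∈ G) (b : A) (hb : b ∈ A') :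
    lm A a * g * lm A b ∈ Submodule.span ℤ {t : Module.End ℤ A | ∃ k : K, ∃ e ∈ E, ∃ g ∈ G,
      ∃ e' ∈ E, t = lm A (k : A) * (lm A e * g * lm A e')} := by
  have ha' : a ∈ Submodule.span K (E : Set A) := by rw [hE]; exact ha
  have hb' : b ∈ Submodule.span K (E : Set A) := by rw [hE]; exact hb
  clear ha hb
  -- first for elements `a = k e`
  have key : ∀ (k : K) (e : A), e ∈ E →
      lm A ((k : A) * e) * g * lm A b ∈ Submodule.span ℤ {t : Module.End ℤ A | ∃ k : K, ∃ e ∈ E,
        ∃ g ∈ G, ∃ e' ∈ E, t = lm A (k : A) * (lm A e * g * lm A e')} := by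
    intro k e he
    have key2 : ∀ (l : A), l ∈ K → lm A ((k : A) * e) * g * lm A (l * b) ∈
        Submodule.span ℤ {t : Module.End ℤ A | ∃ k : K, ∃ e ∈ E,
        ∃ g ∈ G, ∃ e' ∈ E, t = lm A (k : A) * (lm A e * g * lm A e')} := by
      induction hb' using Submodule.span_induction with
      | mem x hx =>
        intro l hl
        obtain ⟨β, hβ, h⟩ := (hG g hg).1 l hl
        apply Submodule.subset_span
        refine ⟨⟨(k : A) * β, mul_mem k.2 hβ⟩, e, he, g, hg, x, hx, ?_⟩
        change _ = lm A ((k : A) * β) * _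
        rw [map_mul (lm A) l x, ← mul_assoc, mul_assoc _ g, h, map_mul, map_mul]
        simp only [mul_assoc]
        rw [← mul_assoc (lm A e) (lm A β), lm_comm e β]
        simp only [mul_assoc]
      | zero =>
        intro l hl
        rw [mul_zero, map_zero, mul_zero]
        exact Submodule.zero_mem _
      | add x y _ _ hx hy =>
        intro l hl
        rw [mul_add, map_add, mul_add]
        exact Submodule.add_mem _ (hx l hl) (hy l hl)
      | smul c x _ hx =>
        intro l hl
        have := hx (l * (c : A)) (mul_mem hl c.2)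
        rw [Subfield.smul_def, smul_eq_mul, ← mul_assoc]
        exact this
    have := key2 1 (one_mem K)
    rwa [one_mul] at this
  have key3 : ∀ (l : A), l ∈ K → lm A (l * a) * g * lm A b ∈
        Submodule.span ℤ {t : Module.End ℤ A | ∃ k : K, ∃ e ∈ E,
        ∃ g ∈ G, ∃ e' ∈ E, t = lm A (k : A) * (lm A e * g * lm A e')} := by
    induction ha' using Submodule.span_induction with
    | mem x hx =>
      intro l hl
      exact key ⟨l, hl⟩ x hx
    | zero =>
      intro l hl
      rw [mul_zero, map_zero, zero_mul, zero_mul]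
      exact Submodule.zero_mem _
    | add x y _ _ hx hy =>
      intro l hl
      rw [mul_add, map_add, add_mul, add_mul]
      exact Submodule.add_mem _ (hx l hl) (hy l hl)
    | smul c x _ hx =>
      intro l hl
      have := hx (l * (c : A)) (mul_mem hl c.2)
      rw [Subfield.smul_def, smul_eq_mul, ← mul_assoc]
      exact this
  have := key3 1 (one_mem K)
  rwa [one_mul] at this

/-- Finite sets of sub-bimodule elements are finitely generated on the right. -/
theorem bimod_right (K : Subfield A) (A' : Subalgebra K A) (E : Finset A)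
    (hE : Submodule.span K (E : Set A) = Subalgebra.toSubmodule A')
    (G : Finset (Module.End ℤ A)) (hG : ∀ g ∈ G, Nrm K g) (a : A) (ha : a ∈ A')
    (g : Module.End ℤ A) (hg : g ∈ G) (b : A) (hb : b ∈ A') :
    lm A a * g * lm A b ∈ Submodule.span ℤ {t : Module.End ℤ A | ∃ k : K, ∃ e ∈ E, ∃ g ∈ G,
      ∃ e' ∈ E, t = (lm A e * g * lm A e') * lm A (k : A)} := by
  have ha' : a ∈ Submodule.span K (E : Set A) := by rw [hE]; exact ha
  have hb' : b ∈ Submodule.span K (E : Set A) := by rw [hE]; exact hb
  clear ha hb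
  have key : ∀ (k : K) (e : A), e ∈ E →
      lm A ((k : A) * e) * g * lm A b ∈ Submodule.span ℤ {t : Module.End ℤ A | ∃ k : K, ∃ e ∈ E,
        ∃ g ∈ G, ∃ e' ∈ E, t = (lm A e * g * lm A e') * lm A (k : A)} := by
    intro k e he
    obtain ⟨β, hβ, h⟩ := (hG g hg).2 k k.2
    have key2 : ∀ (l : A), l ∈ K → lm A ((k : A) * e) * g * lm A (l * b) ∈
        Submodule.span ℤ {t : Module.End ℤ A | ∃ k : K, ∃ e ∈ E,
        ∃ g ∈ G, ∃ e' ∈ E, t = (lm A e * g * lm A e') * lm A (k : A)} := by
      induction hb' using Submodule.span_induction with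
      | mem x hx =>
        intro l hl
        apply Submodule.subset_span
        refine ⟨⟨β * l, mul_mem hβ hl⟩, e, he, g, hg, x, hx, ?_⟩
        change _ = _ * lm A (β * l)
        rw [mul_comm (k : A) e, map_mul (lm A) e, mul_assoc (lm A e), h]
        simp only [mul_assoc]
        rw [← map_mul, ← map_mul]
        congr 3
        ring
      | zero =>
        intro l hl
        rw [mul_zero, map_zero, mul_zero]
        exact Submodule.zero_mem _
      | add x y _ _ hx hy =>
        intro l hl
        rw [mul_add, map_add, mul_add]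
        exact Submodule.add_mem _ (hx l hl) (hy l hl)
      | smul c x _ hx =>
        intro l hl
        have := hx (l * (c : A)) (mul_mem hl c.2)
        rw [Subfield.smul_def, smul_eq_mul, ← mul_assoc]
        exact this
    have := key2 1 (one_mem K)
    rwa [one_mul] at this
  have key3 : ∀ (l : A), l ∈ K → lm A (l * a) * g * lm A b ∈
        Submodule.span ℤ {t : Module.End ℤ A | ∃ k : K, ∃ e ∈ E,
        ∃ g ∈ G, ∃ e' ∈ E, t = (lm A e * g * lm A e') * lm A (k : A)} := by
    induction ha' using Submodule.span_induction with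
    | mem x hx =>
      intro l hl
      exact key ⟨l, hl⟩ x hx
    | zero =>
      intro l hl
      rw [mul_zero, map_zero, zero_mul, zero_mul]
      exact Submodule.zero_mem _
    | add x y _ _ hx hy =>
      intro l hl
      rw [mul_add, map_add, add_mul, add_mul]
      exact Submodule.add_mem _ (hx l hl) (hy l hl)
    | smul c x _ hx =>
      intro l hl
      have := hx (l * (c : A)) (mul_mem hl c.2)
      rw [Subfield.smul_def, smul_eq_mul, ← mul_assoc]
      exact this
  have := key3 1 (one_mem K)
  rwa [one_mul] at this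

/-- The sub-bimodule generated by a finite set. -/
def NN (K : Subfield A) (A' : Subalgebra K A) (G : Finset (Module.End ℤ A)) :
    Submodule ℤ (Module.End ℤ A) :=
  Submodule.span ℤ {t | ∃ a ∈ A', ∃ g ∈ G, ∃ b ∈ A', t = lm A a * g * lm A b}

theorem lm_mul_NN (K : Subfield A) (A' : Subalgebra K A) (G : Finset (Module.End ℤ A)) (c : A)
    (hc : c ∈ A') (t : Module.End ℤ A) (ht : t ∈ NN K A' G) : lm A c * t ∈ NN K A' G := by
  induction ht using Submodule.span_induction with
  | mem x hx =>
    obtain ⟨a, ha, g, hg, b, hb, rfl⟩ := hx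
    apply Submodule.subset_span
    refine ⟨c * a, mul_mem hc ha, g, hg, b, hb, ?_⟩
    rw [map_mul]
    simp only [mul_assoc]
  | zero => rw [mul_zero]; exact Submodule.zero_mem _
  | add x y _ _ hx hy => rw [mul_add]; exact Submodule.add_mem _ hx hy
  | smul c x _ hx => rw [mul_smul_comm]; exact Submodule.smul_mem _ c hx

theorem mul_lm_NN (K : Subfield A) (A' : Subalgebra K A) (G : Finset (Module.End ℤ A)) (c : A)
    (hc : c ∈ A') (t : Module.End ℤ A) (ht : t ∈ NN K A' G) : t * lm A c ∈ NN K A' G := by
  induction ht using Submodule.span_induction with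
  | mem x hx =>
    obtain ⟨a, ha, g, hg, b, hb, rfl⟩ := hx
    apply Submodule.subset_span
    refine ⟨a, ha, g, hg, b * c, mul_mem hb hc, ?_⟩
    rw [map_mul]
    simp only [mul_assoc]
  | zero => rw [zero_mul]; exact Submodule.zero_mem _
  | add x y _ _ hx hy => rw [add_mul]; exact Submodule.add_mem _ hx hy
  | smul c x _ hx => rw [smul_mul_assoc]; exact Submodule.smul_mem _ c hx

/-- The noetherian subring attached to `A'` and `G`. -/
def SS (An : ℕ → Subfield A) (K : Subfield A) (A' : Subalgebra K A)
    (G : Finset (Module.End ℤ A)) : Subring (RR An) where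
  carrier := {z | pr An z ∈ A' ∧ z.1.snd ∈ NN K A' G}
  mul_mem' := by
    rintro z w ⟨ha, hz⟩ ⟨hb, hw⟩
    refine ⟨by rw [pr_mul]; exact mul_mem ha hb, ?_⟩
    rw [Subring.coe_mul, snd_mul', fst_eq, fst_eq]
    exact Submodule.add_mem _ (lm_mul_NN K A' G _ ha _ hw) (mul_lm_NN K A' G _ hb _ hz)
  one_mem' := by
    refine ⟨?_, ?_⟩
    · have : pr An 1 = 1 := (prHom An).map_one
      rw [this]; exact one_mem _
    · rw [Subring.coe_one, TrivSqZeroExt.snd_one]; exact Submodule.zero_mem _
  add_mem' := by
    rintro z w ⟨ha, hz⟩ ⟨hb, hw⟩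
    refine ⟨by rw [pr_add]; exact add_mem ha hb, ?_⟩
    rw [Subring.coe_add, TrivSqZeroExt.snd_add]
    exact Submodule.add_mem _ hz hw
  zero_mem' := by
    refine ⟨?_, ?_⟩
    · have : pr An 0 = 0 := (prHom An).map_zero
      rw [this]; exact zero_mem _
    · rw [Subring.coe_zero, TrivSqZeroExt.snd_zero]; exact Submodule.zero_mem _
  neg_mem' := by
    rintro z ⟨ha, hz⟩
    refine ⟨?_, ?_⟩
    · have : pr An (-z) = - pr An z := (prHom An).map_neg z
      rw [this]; exact neg_mem ha
    · rw [Subring.coe_neg, TrivSqZeroExt.snd_neg]; exact Submodule.neg_mem _ hz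

theorem mem_SS (An : ℕ → Subfield A) (K : Subfield A) (A' : Subalgebra K A)
    (G : Finset (Module.End ℤ A)) (z : RR An) :
    z ∈ SS An K A' G ↔ pr An z ∈ A' ∧ z.1.snd ∈ NN K A' G := Iff.rfl

/-- The map of the field `K` to the subring. -/
noncomputable def fK (An : ℕ → Subfield A) (K : Subfield A) (A' : Subalgebra K A)
    (G : Finset (Module.End ℤ A)) : K →+* SS An K A' G :=
  ((incl An).comp K.subtype).codRestrict (SS An K A' G) (by
    intro k
    refine ⟨?_, ?_⟩
    · have : pr An (((incl An).comp K.subtype) k) = (k : A) := pr_eq An _ _ rfl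
      rw [this]
      exact A'.algebraMap_mem k
    · exact Submodule.zero_mem _)

/-- The inclusion of the subring in the ring of dual numbers. -/
def jS (An : ℕ → Subfield A) (K : Subfield A) (A' : Subalgebra K A)
    (G : Finset (Module.End ℤ A)) : SS An K A' G →+* DualNumber (Module.End ℤ A) :=
  (RR An).subtype.comp (SS An K A' G).subtype

theorem noeth_SS (An : ℕ → Subfield A) (K : Subfield A) (A' : Subalgebra K A)
    (hfg : (Subalgebra.toSubmodule A').FG)
    (G : Finset (Module.End ℤ A)) (hG : ∀ g ∈ G, Nrm K g) :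
    IsNoetherianRing (SS An K A' G) ∧ IsNoetherianRing (SS An K A' G)ᵐᵒᵖ := by
  classical
  obtain ⟨E, hE⟩ := hfg
  -- the finite set of generators
  let H : Finset (DualNumber (Module.End ℤ A)) :=
    E.image (fun e => TrivSqZeroExt.inl (lm A e)) ∪
      ((E ×ˢ G) ×ˢ E).image (fun x => TrivSqZeroExt.inr (lm A x.1.1 * x.1.2 * lm A x.2))
  have hj : Function.Injective (jS An K A' G) := by
    intro x y hxy
    exact Subtype.ext (Subtype.ext hxy)
  have hk : ∀ k : K, jS An K A' G (fK An K A' G k) = TrivSqZeroExt.inl (lm A (k : A)) := by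
    intro k; rfl
  have hH1 : ∀ e ∈ E, (TrivSqZeroExt.inl (lm A e) : DualNumber (Module.End ℤ A)) ∈ H := by
    intro e he
    exact Finset.mem_union_left _ (Finset.mem_image_of_mem _ he)
  have hH2 : ∀ e ∈ E, ∀ g ∈ G, ∀ e' ∈ E,
      (TrivSqZeroExt.inr (lm A e * g * lm A e') : DualNumber (Module.End ℤ A)) ∈ H := by
    intro e he g hg e' he'
    refine Finset.mem_union_right _ (Finset.mem_image.mpr ⟨((e, g), e'), ?_, rfl⟩)
    exact Finset.mem_product.mpr ⟨Finset.mem_product.mpr ⟨he, hg⟩, he'⟩
  have hdec : ∀ s : SS An K A' G, jS An K A' G s =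
      TrivSqZeroExt.inl (lm A (pr An s.1)) + TrivSqZeroExt.inr (s.1.1.snd) := by
    intro s
    apply TrivSqZeroExt.ext
    · rw [TrivSqZeroExt.fst_add, TrivSqZeroExt.fst_inl, TrivSqZeroExt.fst_inr, add_zero]
      exact fst_eq An s.1
    · rw [TrivSqZeroExt.snd_add, TrivSqZeroExt.snd_inl, TrivSqZeroExt.snd_inr, zero_add]
      rfl
  constructor
  · refine isNoetherianRing_of_span (fK An K A' G) (jS An K A' G) hj H ?_
    intro s
    rw [hdec]
    refine Submodule.add_mem _ ?_ ?_
    · have h1 : pr An s.1 ∈ Submodule.span K (E : Set A) := by rw [hE]; exact s.2.1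
      generalize pr An s.1 = a at h1
      have h2 : ∀ l : A, l ∈ K → (TrivSqZeroExt.inl (lm A (l * a)) :
          DualNumber (Module.End ℤ A)) ∈ Submodule.span ℤ {q | ∃ k : K, ∃ g ∈ H,
            q = jS An K A' G (fK An K A' G k) * g} := by
        induction h1 using Submodule.span_induction with
        | mem x hx =>
          intro l hl
          apply Submodule.subset_span
          refine ⟨⟨l, hl⟩, _, hH1 x hx, ?_⟩
          rw [hk, map_mul, TrivSqZeroExt.inl_mul]
        | zero =>
          intro l hl
          rw [mul_zero, map_zero, TrivSqZeroExt.inl_zero]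
          exact Submodule.zero_mem _
        | add x y _ _ hx hy =>
          intro l hl
          rw [mul_add, map_add, TrivSqZeroExt.inl_add]
          exact Submodule.add_mem _ (hx l hl) (hy l hl)
        | smul c x _ hx =>
          intro l hl
          have := hx (l * (c : A)) (mul_mem hl c.2)
          rw [Subfield.smul_def, smul_eq_mul, ← mul_assoc]
          exact this
      have := h2 1 (one_mem K)
      rwa [one_mul] at this
    · have h1 := s.2.2
      generalize s.1.1.snd = t at h1
      have h2 : t ∈ Submodule.span ℤ {t : Module.End ℤ A | ∃ k : K, ∃ e ∈ E, ∃ g ∈ G,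
          ∃ e' ∈ E, t = lm A (k : A) * (lm A e * g * lm A e')} := by
        refine Submodule.span_le.mpr ?_ h1
        rintro _ ⟨a, ha, g, hg, b, hb, rfl⟩
        exact bimod_left K A' E hE G hG a ha g hg b hb
      clear h1
      induction h2 using Submodule.span_induction with
      | mem x hx =>
        obtain ⟨k, e, he, g, hg, e', he', rfl⟩ := hx
        apply Submodule.subset_span
        refine ⟨k, _, hH2 e he g hg e' he', ?_⟩
        rw [hk]
        apply TrivSqZeroExt.ext
        · rw [TrivSqZeroExt.fst_mul, TrivSqZeroExt.fst_inr, TrivSqZeroExt.fst_inr, mul_zero]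
        · rw [snd_mul', TrivSqZeroExt.fst_inl, TrivSqZeroExt.snd_inr, TrivSqZeroExt.snd_inr,
            TrivSqZeroExt.snd_inl, zero_mul, add_zero]
      | zero => rw [TrivSqZeroExt.inr_zero]; exact Submodule.zero_mem _
      | add x y _ _ hx hy => rw [TrivSqZeroExt.inr_add]; exact Submodule.add_mem _ hx hy
      | smul c x _ hx => rw [TrivSqZeroExt.inr_smul]; exact Submodule.smul_mem _ c hx
  · refine isNoetherianRing_op_of_span (fK An K A' G) (jS An K A' G) hj H ?_
    intro s
    rw [hdec]
    refine Submodule.add_mem _ ?_ ?_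
    · have h1 : pr An s.1 ∈ Submodule.span K (E : Set A) := by rw [hE]; exact s.2.1
      generalize pr An s.1 = a at h1
      have h2 : ∀ l : A, l ∈ K → (TrivSqZeroExt.inl (lm A (l * a)) :
          DualNumber (Module.End ℤ A)) ∈ Submodule.span ℤ {q | ∃ k : K, ∃ g ∈ H,
            q = g * jS An K A' G (fK An K A' G k)} := by
        induction h1 using Submodule.span_induction with
        | mem x hx =>
          intro l hl
          apply Submodule.subset_span
          refine ⟨⟨l, hl⟩, _, hH1 x hx, ?_⟩
          rw [hk, mul_comm l x, map_mul, TrivSqZeroExt.inl_mul]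
        | zero =>
          intro l hl
          rw [mul_zero, map_zero, TrivSqZeroExt.inl_zero]
          exact Submodule.zero_mem _
        | add x y _ _ hx hy =>
          intro l hl
          rw [mul_add, map_add, TrivSqZeroExt.inl_add]
          exact Submodule.add_mem _ (hx l hl) (hy l hl)
        | smul c x _ hx =>
          intro l hl
          have := hx (l * (c : A)) (mul_mem hl c.2)
          rw [Subfield.smul_def, smul_eq_mul, ← mul_assoc]
          exact this
      have := h2 1 (one_mem K)
      rwa [one_mul] at this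
    · have h1 := s.2.2
      generalize s.1.1.snd = t at h1
      have h2 : t ∈ Submodule.span ℤ {t : Module.End ℤ A | ∃ k : K, ∃ e ∈ E, ∃ g ∈ G,
          ∃ e' ∈ E, t = (lm A e * g * lm A e') * lm A (k : A)} := by
        refine Submodule.span_le.mpr ?_ h1
        rintro _ ⟨a, ha, g, hg, b, hb, rfl⟩
        exact bimod_right K A' E hE G hG a ha g hg b hb
      clear h1
      induction h2 using Submodule.span_induction with
      | mem x hx =>
        obtain ⟨k, e, he, g, hg, e', he', rfl⟩ := hx
        apply Submodule.subset_span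
        refine ⟨k, _, hH2 e he g hg e' he', ?_⟩
        rw [hk]
        apply TrivSqZeroExt.ext
        · rw [TrivSqZeroExt.fst_mul, TrivSqZeroExt.fst_inr, TrivSqZeroExt.fst_inr, zero_mul]
        · rw [snd_mul', TrivSqZeroExt.fst_inl, TrivSqZeroExt.snd_inr, TrivSqZeroExt.snd_inr,
            TrivSqZeroExt.snd_inl, mul_zero, zero_add]
      | zero => rw [TrivSqZeroExt.inr_zero]; exact Submodule.zero_mem _
      | add x y _ _ hx hy => rw [TrivSqZeroExt.inr_add]; exact Submodule.add_mem _ hx hy
      | smul c x _ hx => rw [TrivSqZeroExt.inr_smul]; exact Submodule.smul_mem _ c hx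

/-- Every finite subset of the ring lies in a noetherian subring. -/
theorem fnoeth (An : ℕ → Subfield A) (hint : ∀ n, ∀ x : A, IsIntegral (An n) x)
    (X : Finset (RR An)) : ∃ S : Subring (RR An), (X : Set (RR An)) ⊆ S ∧
      IsNoetherianRing S ∧ IsNoetherianRing Sᵐᵒᵖ := by
  classical
  have h1 : ∀ z : RR An, ∃ G : Finset (Module.End ℤ A), (G : Set (Module.End ℤ A)) ⊆ gens An ∧
      z.1.snd ∈ Submodule.span ℤ (G : Set (Module.End ℤ A)) := fun z =>
    Submodule.mem_span_finite_of_mem_span z.2.2
  choose Gz hGz1 hGz2 using h1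
  let G : Finset (Module.End ℤ A) := X.biUnion Gz
  have hG : ∀ g ∈ G, g ∈ gens An := by
    intro g hg
    obtain ⟨z, _, hz⟩ := Finset.mem_biUnion.mp hg
    exact hGz1 z hz
  obtain ⟨n, hn⟩ : ∃ n, ∀ g ∈ G, Nrm (An n) g := by
    choose! ν hν using hG
    refine ⟨G.sup ν, fun g hg => hν g hg _ (Finset.le_sup hg)⟩
  let A' : Subalgebra (An n) A := Algebra.adjoin (An n) ((X.image (pr An) : Finset A) : Set A)
  have hfg : (Subalgebra.toSubmodule A').FG :=
    fg_adjoin_of_finite (Finset.finite_toSet _) (fun x _ => hint n x)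
  refine ⟨SS An (An n) A' G, ?_, noeth_SS An (An n) A' hfg G hn⟩
  intro z hz
  refine ⟨?_, ?_⟩
  · apply Algebra.subset_adjoin
    exact Finset.mem_coe.mpr (Finset.mem_image_of_mem _ hz)
  · have h2 : (Gz z : Set (Module.End ℤ A)) ⊆ NN (An n) A' G := by
      intro g hg
      apply Submodule.subset_span
      refine ⟨1, one_mem _, g, Finset.mem_biUnion.mpr ⟨z, hz, hg⟩, 1, one_mem _, ?_⟩
      rw [map_one, one_mul, mul_one]
    exact Submodule.span_le.mpr h2 (hGz2 z)

end Pool.Agent.H12.FN
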