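import Mathlib

set_option autoImplicit false

/-!
# The field of rational functions in the variables `x_i`, `i ∈ ℤ`, over `F_p`
-/

namespace Pool.Agent.H12.FN

open MvPolynomial

variable (p : ℕ) [Fact p.Prime]

/-- The field of rational functions over `ZMod p` in variables indexed by the integers. -/
abbrev AA : Type := FractionRing (MvPolynomial ℤ (ZMod p))

instance charP_AA : CharP (AA p) p :=
  IsFractionRing.charP_of_isFractionRing (MvPolynomial ℤ (ZMod p)) p

/-- The subfield of `p^n`-th powers. -/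
noncomputable def Pn (n : ℕ) : Subfield (AA p) := (iterateFrobenius (AA p) p n).fieldRange

theorem mem_Pn (n : ℕ) (x : AA p) : x ∈ Pn p n ↔ ∃ y : AA p, y ^ p ^ n = x := Iff.rfl

theorem Pn_anti (n : ℕ) : Pn p (n + 1) ≤ Pn p n := by
  intro x hx
  obtain ⟨y, rfl⟩ := (mem_Pn p _ x).mp hx
  refine (mem_Pn p n _).mpr ⟨y ^ p, ?_⟩
  rw [← pow_mul, pow_succ, mul_comm]

theorem Pn_int (n : ℕ) (x : AA p) : IsIntegral (Pn p n) x := by
  have hp : 0 < p ^ n := pow_pos (Fact.out : p.Prime).pos n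
  refine IsIntegral.of_pow hp ?_
  exact isIntegral_algebraMap (R := Pn p n) (x := (⟨x ^ p ^ n, (mem_Pn p n _).mpr ⟨x, rfl⟩⟩ : Pn p n))

/-- The shift automorphism. -/
noncomputable def sh : AA p ≃+* AA p :=
  IsFractionRing.ringEquivOfRingEquiv (A := MvPolynomial ℤ (ZMod p)) (B := MvPolynomial ℤ (ZMod p))
    (renameEquiv (ZMod p) (Equiv.addRight (1 : ℤ))).toRingEquiv

/-- The variables. -/
noncomputable def xx (i : ℤ) : AA p := algebraMap (MvPolynomial ℤ (ZMod p)) (AA p) (X i)

theorem sh_xx (i : ℤ) : sh p (xx p i) = xx p (i + 1) := by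
  unfold sh xx
  rw [IsFractionRing.ringEquivOfRingEquiv_algebraMap]
  congr 1
  exact rename_X (R := ZMod p) (Equiv.addRight (1 : ℤ)) i

theorem Pn_equiv (n : ℕ) (e : AA p ≃+* AA p) (x : AA p) (hx : x ∈ Pn p n) : e x ∈ Pn p n := by
  obtain ⟨y, rfl⟩ := (mem_Pn p _ x).mp hx
  exact (mem_Pn p n _).mpr ⟨e y, by rw [map_pow]⟩

theorem sh_iter (n i : ℕ) : (sh p)^[i] (xx p 0 ^ p ^ n) = xx p i ^ p ^ n := by
  induction i with
  | zero => rfl
  | succ i ih =>
    rw [Function.iterate_succ_apply', ih, map_pow, sh_xx]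
    push_cast
    rfl

/-- The variables are independent over the `p`-th powers. -/
theorem xx_indep (s : Finset ℕ) (c : ℕ → AA p) (h : ∑ i ∈ s, c i ^ p * xx p i = 0) :
    ∀ i ∈ s, c i = 0 := by
  classical
  have hp0 : p ≠ 0 := (Fact.out : p.Prime).ne_zero
  obtain ⟨b, hb⟩ := IsLocalization.exist_integer_multiples_of_finset
    (nonZeroDivisors (MvPolynomial ℤ (ZMod p))) (s.image c)
  have h1 : ∀ i ∈ s, ∃ q : MvPolynomial ℤ (ZMod p),
      algebraMap (MvPolynomial ℤ (ZMod p)) (AA p) q =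
        algebraMap (MvPolynomial ℤ (ZMod p)) (AA p) b * c i := by
    intro i hi
    obtain ⟨q, hq⟩ := hb (c i) (Finset.mem_image_of_mem _ hi)
    exact ⟨q, by rw [hq, Algebra.smul_def]⟩
  choose! q hq using h1
  have h2 : ∑ i ∈ s, q i ^ p * X (i : ℤ) = 0 := by
    apply IsFractionRing.injective (MvPolynomial ℤ (ZMod p)) (AA p)
    rw [map_sum, map_zero]
    have h3 : ∑ i ∈ s, algebraMap (MvPolynomial ℤ (ZMod p)) (AA p) (q i ^ p * X (i : ℤ)) =
        algebraMap (MvPolynomial ℤ (ZMod p)) (AA p) b ^ p * ∑ i ∈ s, c i ^ p * xx p i := by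
      rw [Finset.mul_sum]
      apply Finset.sum_congr rfl
      intro i hi
      rw [map_mul, map_pow, hq i hi, mul_pow, mul_assoc]
      rfl
    rw [h3, h, mul_zero]
  intro j hj
  have h4 : q j ^ p = 0 := by
    have h5 := congrArg (pderiv (R := ZMod p) (j : ℤ)) h2
    rw [map_sum, map_zero, Finset.sum_eq_single j] at h5
    · rw [pderiv_mul, pderiv_pow, pderiv_X_self] at h5
      simpa using h5
    · intro i _ hij
      have hij' : (i : ℤ) ≠ (j : ℤ) := fun h => hij (Int.ofNat.inj h)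
      rw [pderiv_mul, pderiv_pow, pderiv_X_of_ne hij']
      simp
    · intro h; exact absurd hj h
  have h5 : q j = 0 := pow_eq_zero_iff hp0 |>.mp h4
  have h6 := hq j hj
  rw [h5, map_zero] at h6
  have hb0 : algebraMap (MvPolynomial ℤ (ZMod p)) (AA p) b ≠ 0 := by
    intro h7
    have h8 : (b : MvPolynomial ℤ (ZMod p)) = 0 :=
      IsFractionRing.injective (MvPolynomial ℤ (ZMod p)) (AA p) (by rw [h7, map_zero])
    exact nonZeroDivisors.coe_ne_zero b h8
  rcases mul_eq_zero.mp h6.symm with h | h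
  · exact absurd h hb0
  · exact h

theorem indep_iter (n : ℕ) :
    LinearIndependent (Pn p (n + 1)) (fun i : ℕ => (sh p)^[i] (xx p 0 ^ p ^ n)) := by
  rw [linearIndependent_iff']
  intro s g hg i hi
  have h1 : ∀ i, ∃ c : AA p, c ^ p ^ (n + 1) = (g i : AA p) := fun i => (mem_Pn p _ _).mp (g i).2
  choose c hc using h1
  have h2 : ∑ i ∈ s, c i ^ p * xx p i = 0 := by
    apply iterateFrobenius_inj (AA p) p n
    rw [map_sum, map_zero, ← hg]
    apply Finset.sum_congr rfl
    intro i _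
    rw [iterateFrobenius_def, mul_pow, ← pow_mul, ← pow_succ', hc, sh_iter, Subfield.smul_def,
      smul_eq_mul]
  have h3 := xx_indep p s c h2 i hi
  have h4 := hc i
  rw [h3, zero_pow (pow_ne_zero _ (Fact.out : p.Prime).ne_zero)] at h4
  exact Subtype.ext h4.symm

end Pool.Agent.H12.FN
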