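import Mathlib
import Pool.Agent.H12.FN.Ring

set_option autoImplicit false

/-!
# The ring is not directed F-noetherian
-/

namespace Pool.Agent.H12.FN

open TrivSqZeroExt

variable {A : Type*} [Field A]

/-- A consequence of left noetherianity. -/
theorem left_bound (An : ℕ → Subfield A) (S : Subring (RR An)) (hS : IsNoetherianRing S)
    (z : RR An) (hz : z ∈ S) (hz0 : z.1.fst = 0) :
    ∃ W : Finset (Module.End ℤ A), ∀ s ∈ S, z.1.snd * lm A (pr An s) ∈
      Submodule.span ℤ {t : Module.End ℤ A | ∃ s' ∈ S, ∃ w ∈ W, t = lm A (pr An s') * w} := by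
  classical
  let I : Ideal S :=
    { carrier := {s | s.1.1.fst = 0}
      add_mem' := by
        intro a b ha hb
        change (a.1.1 + b.1.1).fst = 0
        rw [TrivSqZeroExt.fst_add]
        change a.1.1.fst = 0 at ha
        change b.1.1.fst = 0 at hb
        rw [ha, hb, add_zero]
      zero_mem' := rfl
      smul_mem' := by
        intro c x hx
        change (c.1.1 * x.1.1).fst = 0
        change x.1.1.fst = 0 at hx
        rw [TrivSqZeroExt.fst_mul, hx, mul_zero] }
  obtain ⟨W0, hW0⟩ := hS.noetherian I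
  refine ⟨W0.image (fun s => s.1.1.snd), ?_⟩
  have hI : ∀ y ∈ I, y.1.1.snd ∈ Submodule.span ℤ {t : Module.End ℤ A | ∃ s' ∈ S,
      ∃ w ∈ W0.image (fun s => s.1.1.snd), t = lm A (pr An s') * w} := by
    intro y hy
    rw [← hW0] at hy
    have h2 : y.1.1.fst = 0 ∧ y.1.1.snd ∈ Submodule.span ℤ {t : Module.End ℤ A | ∃ s' ∈ S,
        ∃ w ∈ W0.image (fun s => s.1.1.snd), t = lm A (pr An s') * w} := by
      induction hy using Submodule.span_induction with
      | mem x hx =>
        refine ⟨?_, ?_⟩
        · have : x ∈ I := by rw [← hW0]; exact Submodule.subset_span hx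
          exact this
        · apply Submodule.subset_span
          refine ⟨1, one_mem S, x.1.1.snd, Finset.mem_image_of_mem _ hx, ?_⟩
          have : pr An 1 = 1 := by
            apply pr_eq
            rw [Subring.coe_one, TrivSqZeroExt.fst_one, map_one]
          rw [this, map_one, one_mul]
      | zero => exact ⟨rfl, Submodule.zero_mem _⟩
      | add x y _ _ hx hy =>
        refine ⟨?_, ?_⟩
        · change (x.1.1 + y.1.1).fst = 0
          rw [TrivSqZeroExt.fst_add, hx.1, hy.1, add_zero]
        · change (x.1.1 + y.1.1).snd ∈ _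
          rw [TrivSqZeroExt.snd_add]
          exact Submodule.add_mem _ hx.2 hy.2
      | smul c x _ hx =>
        refine ⟨?_, ?_⟩
        · change (c.1.1 * x.1.1).fst = 0
          rw [TrivSqZeroExt.fst_mul, hx.1, mul_zero]
        · change (c.1.1 * x.1.1).snd ∈ _
          rw [snd_mul', hx.1, mul_zero, add_zero, fst_eq]
          have h3 := hx.2
          generalize x.1.1.snd = t at h3
          clear hx
          induction h3 using Submodule.span_induction with
          | mem t ht =>
            obtain ⟨s', hs', w, hw, rfl⟩ := ht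
            apply Submodule.subset_span
            refine ⟨c.1 * s', mul_mem c.2 hs', w, hw, ?_⟩
            rw [pr_mul, map_mul, mul_assoc]
          | zero => rw [mul_zero]; exact Submodule.zero_mem _
          | add x y _ _ hx hy => rw [mul_add]; exact Submodule.add_mem _ hx hy
          | smul c x _ hx => rw [mul_smul_comm]; exact Submodule.smul_mem _ c hx
    exact h2.2
  intro s hs
  have h1 : (⟨z, hz⟩ * ⟨s, hs⟩ : S) ∈ I := by
    change (z.1 * s.1).fst = 0
    rw [TrivSqZeroExt.fst_mul, hz0, zero_mul]
  have h2 := hI _ h1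
  have h3 : (z.1 * s.1).snd = z.1.snd * lm A (pr An s) := by
    rw [snd_mul', hz0, zero_mul, zero_add, fst_eq]
  rw [← h3]
  exact h2

/-- The field generated by a subring over a field over which everything is algebraic. -/
def FF (K : Subfield A) (hint : ∀ x : A, IsIntegral K x) (B : Subring A) : Subfield A :=
  { (Algebra.adjoin K (B : Set A)).toSubring with
    inv_mem' := by
      intro x hx
      exact Subalgebra.inv_mem_of_algebraic (A := Algebra.adjoin K (B : Set A)) (x := ⟨x, hx⟩)
        (hint x).isAlgebraic }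

theorem mem_FF (K : Subfield A) (hint : ∀ x : A, IsIntegral K x) (B : Subring A) (x : A) :
    x ∈ FF K hint B ↔ x ∈ Submodule.span K (B : Set A) := by
  have h : (Algebra.adjoin K (B : Set A)).toSubmodule = Submodule.span K (B : Set A) := by
    rw [Algebra.adjoin_eq_span]
    congr 1
    exact congrArg SetLike.coe (Submonoid.closure_eq B.toSubmonoid)
  rw [← h]
  rfl

theorem le_FF (K : Subfield A) (hint : ∀ x : A, IsIntegral K x) (B : Subring A) (x : A)
    (hx : x ∈ K) : x ∈ FF K hint B := by
  have h : (Algebra.adjoin K (B : Set A)).toSubring = (FF K hint B).toSubring := rfl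
  have h2 : x ∈ Algebra.adjoin K (B : Set A) :=
    (Algebra.adjoin K (B : Set A)).algebraMap_mem ⟨x, hx⟩
  exact h2

theorem not_directed (An : ℕ → Subfield A) (hanti : ∀ n, An (n + 1) ≤ An n)
    (hint : ∀ n, ∀ x : A, IsIntegral (An n) x) (γ : A ≃+* A)
    (hγ : ∀ n, ∀ x ∈ An n, γ x ∈ An n) (hγ' : ∀ n, ∀ x ∈ An n, γ.symm x ∈ An n)
    (x0 : A) (y : ℕ → A) (hy : ∀ n, y n ∈ An n) (hy' : ∀ n, y n ∈ Subring.closure {x0})
    (hli : ∀ n, LinearIndependent (An (n + 1)) (fun i : ℕ => γ^[i] (y n)))
    (N : Finset (RR An) → Subring (RR An)) (hN : ∀ X : Finset (RR An), (X : Set (RR An)) ⊆ N X)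
    (hN' : ∀ X, IsNoetherianRing (N X)) (hmono : ∀ X Y, X ⊆ Y → N X ≤ N Y) : False := by
  classical
  have hanti' : ∀ n m, n ≤ m → An m ≤ An n := by
    intro n m hnm
    induction hnm with
    | refl => exact le_rfl
    | step _ ih => exact (hanti _).trans ih
  -- the automorphism as an endomorphism
  let γT : Module.End ℤ A := (γ : A →+ A).toIntLinearMap
  have hγT : ∀ a, γT a = γ a := fun _ => rfl
  have hγM : γT ∈ MM An := by
    apply Submodule.subset_span
    refine ⟨0, fun m _ => ⟨?_, ?_⟩⟩
    · intro α hα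
      refine ⟨γ α, hγ m α hα, ?_⟩
      ext a
      change γ (α * a) = γ α * γ a
      rw [map_mul]
    · intro α hα
      refine ⟨γ.symm α, hγ' m α hα, ?_⟩
      ext a
      change α * γ a = γ (γ.symm α * a)
      rw [map_mul, RingEquiv.apply_symm_apply]
  -- the functionals
  have hφ : ∀ n, ∃ φ : A →ₗ[An n] An n, φ ≠ 0 := by
    intro n
    by_contra hcon
    push Not at hcon
    exact one_ne_zero ((Module.forall_dual_apply_eq_zero_iff (An n) (1 : A)).mp (fun φ => by
      rw [hcon φ]; rfl))
  choose φ hφ0 using hφ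
  have hφM : ∀ n, fn (An n) (φ n) ∈ MM An := by
    intro n
    apply Submodule.subset_span
    have h1 : ∀ α ∈ An n, fn (An n) (φ n) * lm A α = lm A α * fn (An n) (φ n) := by
      intro α hα
      ext a
      have h2 := (φ n).map_smul ⟨α, hα⟩ a
      exact congrArg Subtype.val h2
    refine ⟨n, fun m hm => ⟨?_, ?_⟩⟩
    · intro α hα
      exact ⟨α, hα, h1 α (hanti' n m hm hα)⟩
    · intro α hα
      exact ⟨α, hα, (h1 α (hanti' n m hm hα)).symm⟩
  -- the subrings
  let X0 : Finset (RR An) := {incl An x0, eps An γT hγM}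
  let X1 : ℕ → Finset (RR An) := fun n => insert (eps An (fn (An n) (φ n)) (hφM n)) X0
  let B : Subring A := (N X0).map (prHom An)
  have hBmem : ∀ s ∈ N X0, pr An s ∈ B := fun s hs => ⟨s, hs, rfl⟩
  have hx0 : x0 ∈ B := by
    refine ⟨incl An x0, ?_, ?_⟩
    · exact hN X0 (Finset.mem_coe.mpr (Finset.mem_insert_self _ _))
    · exact pr_eq An (incl An x0) x0 rfl
  have hyB : ∀ n, y n ∈ B := by
    intro n
    have : Subring.closure {x0} ≤ B := by
      rw [Subring.closure_le]
      exact Set.singleton_subset_iff.mpr hx0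
    exact this (hy' n)
  -- the bound for `γ`
  obtain ⟨W0, hW0⟩ := left_bound An (N X0) (hN' X0) (eps An γT hγM)
    (hN X0 (Finset.mem_coe.mpr (Finset.mem_insert_of_mem (Finset.mem_singleton_self _)))) rfl
  -- the finiteness over `An n`
  have hfin : ∀ n, Module.Finite (An n) (Submodule.span (An n) (B : Set A)) := by
    intro n
    obtain ⟨W1, hW1⟩ := left_bound An (N (X1 n)) (hN' (X1 n)) (eps An (fn (An n) (φ n)) (hφM n))
      (hN (X1 n) (Finset.mem_coe.mpr (Finset.mem_insert_self _ _))) rfl
    have hle : N X0 ≤ N (X1 n) := hmono _ _ (Finset.subset_insert _ _)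
    apply finite_span (An n) (φ n) (hφ0 n) (B : Set A) W1
    rintro _ ⟨s, hs, rfl⟩
    have h2 := hW1 s (hle hs)
    have h3 : Submodule.span ℤ {t : Module.End ℤ A | ∃ s' ∈ N (X1 n), ∃ w ∈ W1,
        t = lm A (pr An s') * w} ≤
        (Submodule.span A (W1 : Set (Module.End ℤ A))).toAddSubgroup.toIntSubmodule := by
      rw [Submodule.span_le]
      rintro _ ⟨s', _, w, hw, rfl⟩
      exact Submodule.smul_mem (Submodule.span A (W1 : Set (Module.End ℤ A))) (pr An s')
        (Submodule.subset_span hw)
    exact h3 h2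
  let F : ℕ → Subfield A := fun n => FF (An n) (hint n) B
  have hFmem : ∀ n x, x ∈ F n ↔ x ∈ Submodule.span (An n) (B : Set A) := fun n x =>
    mem_FF (An n) (hint n) B x
  have hBF : ∀ n, ∀ b ∈ B, b ∈ F n := by
    intro n b hb
    rw [hFmem]
    exact Submodule.subset_span hb
  have hFanti : ∀ n, F (n + 1) ≤ F n := by
    intro n x hx
    rw [hFmem] at hx ⊢
    induction hx using Submodule.span_induction with
    | mem x hx => exact Submodule.subset_span hx
    | zero => exact Submodule.zero_mem _
    | add x y _ _ hx hy => exact Submodule.add_mem _ hx hy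
    | smul c x _ hx => exact Submodule.smul_mem _ (⟨c.1, hanti n c.2⟩ : An n) hx
  let W : Finset A := W0.image (fun w => w 1)
  obtain ⟨n, hn⟩ := stabilize F hFanti (γ '' (B : Set A)) ⟨1, one_mem B, map_one γ⟩ W (by
    intro n
    rintro _ ⟨_, ⟨s, hs, rfl⟩, rfl⟩
    have h1 := hW0 s hs
    have h2 : ∀ t ∈ Submodule.span ℤ {t : Module.End ℤ A | ∃ s' ∈ N X0, ∃ w ∈ W0,
        t = lm A (pr An s') * w}, t 1 ∈ (Submodule.span (F n) (W : Set A) :
          Submodule (F n) A) := by
      intro t ht
      induction ht using Submodule.span_induction with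
      | mem t ht =>
        obtain ⟨s', hs', w, hw, rfl⟩ := ht
        have h3 : (⟨pr An s', hBF n _ (hBmem s' hs')⟩ : F n) • (w 1) ∈
            (Submodule.span (F n) (W : Set A) : Submodule (F n) A) :=
          Submodule.smul_mem _ _ (Submodule.subset_span
            (Finset.mem_coe.mpr (Finset.mem_image_of_mem _ hw)))
        exact h3
      | zero => exact Submodule.zero_mem _
      | add x y _ _ hx hy => exact Submodule.add_mem _ hx hy
      | smul c x _ hx =>
        rw [LinearMap.smul_apply]
        exact zsmul_mem hx c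
    have h4 := h2 _ h1
    have h5 : ((eps An γT hγM).1.snd * lm A (pr An s)) 1 = γ (pr An s) := by
      change γ (pr An s * 1) = γ (pr An s)
      rw [mul_one]
    rw [h5] at h4
    exact h4)
  -- all `γ^i (y n)` lie in `F (n+1)`
  have hall : ∀ i : ℕ, γ^[i] (y n) ∈ F (n + 1) ∧ γ^[i] (y n) ∈ An n := by
    intro i
    induction i with
    | zero => exact ⟨hBF _ _ (hyB n), hy n⟩
    | succ i ih =>
      rw [Function.iterate_succ_apply']
      have h1 : γ (γ^[i] (y n)) ∈ An n := hγ n _ ih.2
      refine ⟨hn _ (le_FF (An n) (hint n) B _ h1) ?_, h1⟩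
      have h2 := ih.1
      rw [hFmem] at h2
      generalize γ^[i] (y n) = x at h2
      clear ih h1
      induction h2 using Submodule.span_induction with
      | mem x hx => exact Submodule.subset_span ⟨x, hx, rfl⟩
      | zero => rw [map_zero]; exact Submodule.zero_mem _
      | add x y _ _ hx hy => rw [map_add]; exact Submodule.add_mem _ hx hy
      | smul c x _ hx =>
        rw [Subfield.smul_def, smul_eq_mul, map_mul]
        exact Submodule.smul_mem _
          (⟨γ c, le_FF (An (n + 1)) (hint (n + 1)) B _ (hγ (n + 1) _ c.2)⟩ : F (n + 1)) hx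
  have hmem : ∀ i : ℕ, γ^[i] (y n) ∈ Submodule.span (An (n + 1)) (B : Set A) := fun i =>
    (hFmem _ _).mp (hall i).1
  have hf := hfin (n + 1)
  have hli2 : LinearIndependent (An (n + 1))
      (fun i : ℕ => (⟨γ^[i] (y n), hmem i⟩ : Submodule.span (An (n + 1)) (B : Set A))) := by
    apply LinearIndependent.of_comp (Submodule.subtype _)
    exact hli n
  have := hli2.finite_of_isNoetherian
  exact not_finite ℕ

end Pool.Agent.H12.FN
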